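import Pool.Agent.N689.ZL.Gen

/-!
# Zero divisors in the group rings of random Artin groups: a zero-one law

A Coxeter matrix of rank `n` is given by the list `x` of its `n (n - 1) / 2` labels above the
diagonal (`0` stands for infinity); in the random Artin group of rank `n` the labels are
independent, with an arbitrary distribution `p`.

Theorem. Let `K` be a field. Either the group algebras over `K` of all Artin groups all of whose
labels have positive probability have no zero divisors, or the group algebra of the random Artin
group of rank `n` has no zero divisors with probability at most `exp (- c n ^ 2)` for large `n`.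
-/

set_option autoImplicit false

namespace Pool.Agent.Results.MP_7b9603_al.RandomArtinGroups

open Pool.Agent.N689.ZL

universe u

/-- The group algebra over `K` has no zero divisors. -/
def NoZeroDiv (K : Type u) [Field K] (G : Type) [Group G] : Prop :=
  ∀ x y : MonoidAlgebra K G, x * y = 0 → x = 0 ∨ y = 0

theorem of_injective (K : Type u) [Field K] (G G' : Type) [Group G] [Group G'] (f : G →* G')
    (hf : Function.Injective f) (h : NoZeroDiv K G') : NoZeroDiv K G := by
  intro x y hxy
  let F : MonoidAlgebra K G →+* MonoidAlgebra K G' := MonoidAlgebra.mapDomainRingHom K f
  have hF : Function.Injective F := by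
    intro a b hab
    exact MonoidAlgebra.mapDomain_injective hf hab
  rcases h (F x) (F y) (by rw [← map_mul, hxy, map_zero]) with h1 | h1
  · exact Or.inl (hF (h1.trans (map_zero F).symm))
  · exact Or.inr (hF (h1.trans (map_zero F).symm))

/-- For every field `K` and every distribution `p` of the labels: (1) the group algebras over `K` of
all Artin groups whose labels have positive probability have no zero divisors, or (2) for some
`c > 0` and all large `n` the group algebra of the random Artin group of rank `n` has no zero
divisors with probability at most `exp (- c n ^ 2)`. -/
theorem result (K : Type u) [Field K] (p : PMF ℕ) :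
    (∀ n x, x.length = n.choose 2 → (∀ t ∈ x, p t ≠ 0) → NoZeroDiv K (ArtinGroup n x)) ∨
    ∃ c : ℝ, 0 < c ∧ ∃ n₀ : ℕ, ∀ n ≥ n₀,
      prob p n {x | NoZeroDiv K (ArtinGroup n x)} ≤ Real.exp (-(c * (n : ℝ) ^ 2)) :=
  zeroOne (fun G _ => NoZeroDiv K G) (fun G H _ _ f hf h => of_injective K G H f hf h) p

end Pool.Agent.Results.MP_7b9603_al.RandomArtinGroups
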